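import Pool.Agent.Helper53.Comp.GoalsC

/-!
# Packet A5: the strong monodromy property for products of linear forms
-/

namespace Mono

namespace Comp

open Finset

namespace A5

variable (M : ArrGerm)

theorem Nn_card (G : Finset (Fin M.m)) : G.card ≤ M.Nn G := by
  unfold ArrGerm.Nn
  calc G.card = ∑ _h ∈ G, 1 := by simp
    _ ≤ ∑ h ∈ G, M.μ h := Finset.sum_le_sum fun h _ => M.μpos h

theorem Nn_pos (G : Finset (Fin M.m)) (hG : G.Nonempty) : 0 < M.Nn G :=
  lt_of_lt_of_le (Finset.card_pos.2 hG) (Nn_card M G)

theorem rk_pos (h1 : RankFn M.rk) (h2 : ∀ h, M.rk {h} = 1) (G : Finset (Fin M.m))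
    (hG : G.Nonempty) : 0 < M.rk G := by
  obtain ⟨h, hh⟩ := hG
  have := h1.mono {h} G (by simpa using hh)
  rw [h2] at this
  exact this

theorem eul_empty (F : Finset (Fin M.m)) : M.eul ∅ F = -altR M.rk ∅ F := by
  unfold ArrGerm.eul altR
  rw [Finset.sdiff_empty]

theorem isFlat_univ : M.IsFlat univ := fun h _ => Finset.mem_univ h

theorem univ_ne : (univ : Finset (Fin M.m)).Nonempty := ⟨⟨0, M.pos⟩, Finset.mem_univ _⟩

theorem exists_flat_two (h1 : RankFn M.rk)
    (h3 : ∀ F, M.IsFlat F ↔ ∀ h, h ∉ F → M.rk (insert h F) = M.rk F + 1)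
    (h : 2 ≤ M.rk univ) : ∃ F, M.IsFlat F ∧ M.rk F = 2 := by
  classical
  -- a set of rank two
  have hex : ∃ S : Finset (Fin M.m), M.rk S = 2 := by
    by_contra hne
    push Not at hne
    have hlt : ∀ S : Finset (Fin M.m), M.rk S < 2 := by
      intro S
      induction S using Finset.induction_on with
      | empty => rw [h1.empty]; norm_num
      | insert x S _ ih =>
        have h4 := h1.insert S x
        have h5 := hne (insert x S)
        omega
    exact absurd (hlt univ) (by omega)
  obtain ⟨S, hS⟩ := hex
  obtain ⟨F, hF, hmax⟩ := Finset.exists_max_image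
    (univ.filter (fun F : Finset (Fin M.m) => M.rk F = 2)) Finset.card
    ⟨S, by simp [hS]⟩
  rw [Finset.mem_filter] at hF
  refine ⟨F, (h3 F).2 ?_, hF.2⟩
  intro x hx
  have h4 := h1.insert F x
  have h5 := h1.mono F (insert x F) (Finset.subset_insert _ _)
  have h6 : M.rk (insert x F) ≠ 2 := by
    intro h7
    have h8 := hmax (insert x F) (by simp [h7])
    rw [Finset.card_insert_of_notMem hx] at h8
    omega
  omega

end A5

open A5 in
theorem arrSMC : ArrSMC := by
  classical
  intro hR hC hRec hP M
  obtain ⟨h1, h2, h3, h4⟩ := hR M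
  refine ⟨?_, ?_⟩
  · intro t ht
    unfold ArrGerm.strata at ht
    rw [List.mem_map] at ht
    obtain ⟨C, hCm, rfl⟩ := ht
    rw [Finset.mem_toList] at hCm
    unfold ArrGerm.chains at hCm
    rw [Finset.mem_filter] at hCm
    obtain ⟨_, hu, hfl, _⟩ := hCm
    refine ⟨?_, ?_⟩
    · intro h0
      have h5 : C.toList = [] := by simpa using h0
      rw [Finset.toList_eq_nil] at h5
      rw [h5] at hu
      exact Finset.notMem_empty _ hu
    · intro q hq
      have hq' : q ∈ C.toList.map (fun F => (M.Nn F, M.rk F)) := hq
      rw [List.mem_map] at hq'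
      obtain ⟨F, hF, rfl⟩ := hq'
      rw [Finset.mem_toList] at hF
      exact ⟨Nn_pos M F (hfl F hF).2, rk_pos M h1 h2 F (hfl F hF).2⟩
  · intro e he z hz
    obtain ⟨hZ, hrec⟩ := hRec M e
    have hz' : (M.ZA e univ).denom.eval z = 0 := by rw [← hZ]; exact hz
    obtain ⟨G, hGf, hGn, hGc, heG, hGz⟩ := hP hR hC hRec M e he univ (isFlat_univ M) (univ_ne M)
      z hz'
    have hN := Nn_pos M G hGn
    have hr := rk_pos M h1 h2 G hGn
    have hNc := Nn_card M G
    have hrc := h4 G
    -- the power of the eigenvalue
    have hpow : Complex.exp (2 * Real.pi * Complex.I * z) ^ M.Nn G = 1 := by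
      rw [← Complex.exp_nat_mul, Complex.exp_eq_one_iff]
      refine ⟨-(M.rk G : ℤ), ?_⟩
      push_cast
      linear_combination (2 * Real.pi * Complex.I) * hGz
    by_cases hl : Complex.exp (2 * Real.pi * Complex.I * z) = 1
    · -- the eigenvalue is `1`
      obtain ⟨n, hn⟩ := Complex.exp_eq_one_iff.1 hl
      have h2pi : (2 * Real.pi * Complex.I : ℂ) ≠ 0 := by
        simp [Real.pi_ne_zero, Complex.I_ne_zero]
      have hzn : z = n := by
        have : (2 * Real.pi * Complex.I : ℂ) * z = (2 * Real.pi * Complex.I) * n := by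
          rw [hn]; ring
        exact mul_left_cancel₀ h2pi this
      have hint : (M.Nn G : ℤ) * n + M.rk G = 0 := by
        have h5 := hGz
        rw [hzn] at h5
        exact_mod_cast h5
      have hn1 : n = -1 := by
        have h6 : (M.rk G : ℤ) ≤ M.Nn G := by exact_mod_cast hrc.trans hNc
        have h7 : (0 : ℤ) < M.rk G := by exact_mod_cast hr
        have h8 : (0 : ℤ) < M.Nn G := by exact_mod_cast hN
        have h9 : n < 0 := by
          by_contra h10
          push Not at h10
          have := mul_nonneg h8.le h10
          omega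
        have h11 : -1 ≤ n := by
          by_contra h12
          push Not at h12
          have h13 : (M.Nn G : ℤ) * n ≤ (M.Nn G : ℤ) * (-2) :=
            mul_le_mul_of_nonneg_left (by omega) h8.le
          omega
        omega
      subst hn1
      have hNr : M.Nn G = M.rk G := by
        have : (M.Nn G : ℤ) = M.rk G := by linarith
        exact_mod_cast this
      have hcard : G.card = 1 := by
        by_contra hne
        have hpos := Finset.card_pos.2 hGn
        obtain ⟨x, hx⟩ := hGn
        have hB : (G.erase x).Nonempty := by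
          rw [← Finset.card_pos, Finset.card_erase_of_mem hx]
          omega
        have hU : ({x} : Finset (Fin M.m)) ∪ G.erase x = G := by
          rw [← Finset.insert_eq, Finset.insert_erase hx]
        have hD : Disjoint ({x} : Finset (Fin M.m)) (G.erase x) := by
          simp
        have h5 := hGc {x} (G.erase x) ⟨x, by simp⟩ hB hD hU
        rw [Finset.union_empty, Finset.union_empty, Finset.union_empty, h1.empty, h2] at h5
        have h6 := h1.submod {x} (G.erase x)
        rw [hU, h2] at h6
        have h7 := h4 (G.erase x)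
        rw [Finset.card_erase_of_mem hx] at h7
        omega
      have he1 : e = 1 := by
        have h5 : M.Nn G = 1 := by omega
        rw [h5] at heG
        exact Nat.dvd_one.1 heG
      subst he1
      by_cases hru : 2 ≤ M.rk univ
      · left
        rw [hl]
        obtain ⟨F, hF, hF2⟩ := exists_flat_two M h1 h3 hru
        have hFn : F.Nonempty := by
          rw [Finset.nonempty_iff_ne_empty]
          intro h5
          rw [h5, h1.empty] at hF2
          omega
        refine ⟨F, hF, hFn, ?_⟩
        rw [if_pos (one_pow _), if_pos rfl, eul_empty]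
        have h5 := (hC (Fin M.m) M.rk h1 ∅ F (Finset.disjoint_empty_left _) hFn).1
        rw [Finset.union_empty, hF2, h1.empty] at h5
        norm_num at h5
        omega
      · right
        refine ⟨rfl, by rw [hzn]; norm_num, ?_⟩
        rw [hZ, hrec univ (isFlat_univ M) (univ_ne M)]
        have hsum : univ.filter (fun G => M.IsFlat G ∧ G.Nonempty ∧ G ⊂ univ) = ∅ := by
          rw [Finset.filter_eq_empty_iff]
          rintro F - ⟨hF, hFn, hFu⟩
          obtain ⟨x, _, hx⟩ := Finset.exists_of_ssubset hFu
          have h5 := (h3 F).1 hF x hx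
          have h6 := rk_pos M h1 h2 F hFn
          have h7 := h1.mono (insert x F) univ (Finset.subset_univ _)
          omega
        rw [hsum, Finset.sum_empty, add_zero, if_pos (one_dvd _)]
        have h6 : (1 / (RatFunc.C (M.Nn univ : ℂ) * RatFunc.X + RatFunc.C (M.rk univ : ℂ)) *
            RatFunc.C (M.eul ∅ univ : ℂ) : RatFunc ℂ) =
            algebraMap (Polynomial ℂ) (RatFunc ℂ) (Polynomial.C (M.eul ∅ univ : ℂ)) /
              algebraMap (Polynomial ℂ) (RatFunc ℂ)
                (Polynomial.C (M.Nn univ : ℂ) * Polynomial.X + Polynomial.C (M.rk univ : ℂ)) := by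
          rw [map_add, map_mul, RatFunc.algebraMap_C, RatFunc.algebraMap_C, RatFunc.algebraMap_C,
            RatFunc.algebraMap_X]
          rw [one_div, div_eq_mul_inv, mul_comm]
        rw [h6]
        have hNu : (M.Nn univ : ℂ) ≠ 0 := by
          exact_mod_cast (Nn_pos M univ (univ_ne M)).ne'
        have hdeg : (Polynomial.C (M.Nn univ : ℂ) * Polynomial.X +
            Polynomial.C (M.rk univ : ℂ)).natDegree = 1 := Polynomial.natDegree_linear hNu
        have hne0 : (Polynomial.C (M.Nn univ : ℂ) * Polynomial.X +
            Polynomial.C (M.rk univ : ℂ)) ≠ 0 := by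
          intro h0
          rw [h0] at hdeg
          simp at hdeg
        refine (Polynomial.rootMultiplicity_le_rootMultiplicity_of_dvd hne0
          (RatFunc.denom_div_dvd _ _) _).trans ?_
        rw [← Polynomial.count_roots]
        exact ((Multiset.count_le_card _ _).trans (Polynomial.card_roots' _)).trans hdeg.le
    · -- the eigenvalue is not `1`
      left
      refine ⟨G, hGf, hGn, ?_⟩
      rw [if_pos hpow, if_neg hl, sub_zero, eul_empty]
      have h5 := (hC (Fin M.m) M.rk h1 ∅ G (Finset.disjoint_empty_left _) hGn).2.1 hGc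
        (fun x _ => by
          rw [h1.empty]
          have : insert x (∅ : Finset (Fin M.m)) = {x} := rfl
          rw [this, h2])
      exact neg_ne_zero.2 h5

end Comp

end Mono
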